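import Mathlib
import Pool.Agent.Lib.MP_14789b_nt.Exist
import Pool.Agent.Lib.MP_14789b_nt.CriterionField

namespace Pool.Agent.Results.MP_14789b_nt.WThreePFour

/-- A quadratic form is regular: its polar form (in characteristic different from `2` this is
twice the associated symmetric bilinear form) is nondegenerate. -/
def IsRegular {K V : Type} [Field K] [AddCommGroup V] [Module K V]
    (Q : QuadraticForm K V) : Prop :=
  ∀ x : V, (∀ y : V, QuadraticMap.polar Q x y = 0) → x = 0

/-- `n × Q` (the orthogonal sum of `n` copies of `Q`, living on `Fin n → V`) is isotropic for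
some `n ≥ 1`. -/
def WeaklyIsotropic {K V : Type} [Field K] [AddCommGroup V] [Module K V]
    (Q : QuadraticForm K V) : Prop :=
  ∃ n : ℕ, 1 ≤ n ∧ ∃ v : Fin n → V, v ≠ 0 ∧ ∑ i, Q (v i) = 0

/-- `Q` is weakly isotropic and no proper subform of `Q` (restriction of `Q` to a proper subspace
on which it is regular) is weakly isotropic. -/
def MinimalWeaklyIsotropic {K V : Type} [Field K] [AddCommGroup V] [Module K V]
    (Q : QuadraticForm K V) : Prop :=
  WeaklyIsotropic Q ∧ ∀ W : Submodule K V, W ≠ ⊤ → IsRegular (Q.comp W.subtype) →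
    ¬ WeaklyIsotropic (Q.comp W.subtype)

/-- The supremum of the dimensions of the (regular) minimal weakly isotropic forms over `K`. -/
noncomputable def wInvariant (K : Type) [Field K] : ℕ∞ :=
  sSup {d : ℕ∞ | ∃ (n : ℕ) (Q : QuadraticForm K (Fin n → K)),
    d = n ∧ IsRegular Q ∧ MinimalWeaklyIsotropic Q}

/-- The least `n ≥ 1` such that each sum of squares in `K` is a sum of `n` squares, and `∞` if
there is no such `n`. -/
noncomputable def pythagorasNumber (K : Type) [Field K] : ℕ∞ :=
  sInf {d : ℕ∞ | ∃ n : ℕ, d = n ∧ 1 ≤ n ∧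
    ∀ (m : ℕ) (f : Fin m → K), ∃ g : Fin n → K, ∑ i, f i ^ 2 = ∑ i, g i ^ 2}

open Polynomial Pool.Agent.Lib.MP_14789b_nt

theorem aux_wi {K : Type} [Field K] [CharZero K] {x w0 w2 : K} (hw0 : w0 ≠ 0)
    (hx : x ^ 2 = w0 - 1) :
    w0 * (x / w0) ^ 2 + -3 * (1 + w2) * (1 / 3) ^ 2 + w2 * 1 ^ 2
      + (w0 * (1 / w0) ^ 2 + -3 * (1 + w2) * (1 / 3) ^ 2 + w2 * 0 ^ 2)
      + (w0 * 0 ^ 2 + -3 * (1 + w2) * (1 / 3) ^ 2 + w2 * 0 ^ 2) = 0 := by
  rw [div_pow, hx]
  field_simp
  ring

/-- There is a field `K` of characteristic different from `2` with `w(K) ≥ 3` and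
`p(K) ≤ 4`. -/
theorem result : ∃ (K : Type) (_ : Field K),
    ringChar K ≠ 2 ∧ 3 ≤ wInvariant K ∧ pythagorasNumber K ≤ 4 := by
  obtain ⟨F, _, _, c, h1, h3, hR, hI⟩ := exists_F
  set K := FractionRing F[X] with hK
  have hcharK : CharZero K := by
    have : CharZero F[X] := inferInstance
    exact charZero_of_injective_algebraMap (IsFractionRing.injective F[X] K)
  have hinj : Function.Injective (algebraMap F[X] K) := IsFractionRing.injective _ _
  have hc0 : c ≠ 0 := by
    intro h
    have := (h1 0 (fun _ => 0) 0 1 (by rw [h]; simp)).2.2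
    exact one_ne_zero this
  have hd0 : -(1 + c) * 3 ≠ 0 := by
    intro h
    have := (h1 0 (fun _ => 0) 1 0 (by rw [h]; simp)).2.1
    exact one_ne_zero this
  have hX0 : (X ^ 2 + 1 : F[X]) ≠ 0 := by
    intro h
    have := congrArg (fun q => coeff q 2) h
    simp [coeff_one] at this
  set w0 : K := algebraMap F[X] K (X ^ 2 + 1) with hw0
  set w1 : K := algebraMap F[X] K (C (-(1 + c) * 3)) with hw1
  set w2 : K := algebraMap F[X] K (C c) with hw2
  have hw0n : w0 ≠ 0 := fun h => hX0 ((map_eq_zero_iff _ hinj).mp h)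
  have hw1n : w1 ≠ 0 := fun h => hd0 (C_eq_zero.mp ((map_eq_zero_iff _ hinj).mp h))
  have hw2n : w2 ≠ 0 := fun h => hc0 (C_eq_zero.mp ((map_eq_zero_iff _ hinj).mp h))
  let Q : QuadraticForm K (Fin 3 → K) := QuadraticMap.weightedSumSquares K ![w0, w1, w2]
  have hQ : ∀ v : Fin 3 → K, Q v = w0 * v 0 ^ 2 + w1 * v 1 ^ 2 + w2 * v 2 ^ 2 := by
    intro v
    rw [QuadraticMap.weightedSumSquares_apply, Fin.sum_univ_three]
    simp only [Matrix.cons_val_zero, Matrix.cons_val_one, Matrix.cons_val, smul_eq_mul]
    ring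
  refine ⟨K, inferInstance, ?_, ?_, ?_⟩
  · rw [ringChar.eq_zero]; norm_num
  · refine le_sSup ⟨3, Q, rfl, ?_, ?_, ?_⟩
    · -- regular
      intro x hx
      have hp : ∀ y : Fin 3 → K, 2 * (w0 * x 0 * y 0 + w1 * x 1 * y 1 + w2 * x 2 * y 2) = 0 := by
        intro y
        have := hx y
        rw [QuadraticMap.polar, hQ, hQ, hQ] at this
        simp only [Pi.add_apply] at this
        linear_combination this
      have e0 := hp ![1, 0, 0]
      have e1 := hp ![0, 1, 0]
      have e2 := hp ![0, 0, 1]
      simp at e0 e1 e2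
      funext j
      fin_cases j
      · exact e0.resolve_left hw0n
      · exact e1.resolve_left hw1n
      · exact e2.resolve_left hw2n
    · -- weakly isotropic
      refine ⟨3, by norm_num, ![![algebraMap F[X] K X / w0, 1 / 3, 1], ![1 / w0, 1 / 3, 0],
        ![0, 1 / 3, 0]], ?_, ?_⟩
      · intro h
        have := congrFun (congrFun h 0) 2
        simp at this
      · rw [Fin.sum_univ_three, hQ, hQ, hQ]
        simp only [Matrix.cons_val_zero, Matrix.cons_val_one, Matrix.cons_val]
        have hw0' : algebraMap F[X] K X ^ 2 = w0 - 1 := by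
          rw [hw0, map_add, map_pow, map_one]; ring
        have hw1' : w1 = -3 * (1 + w2) := by
          rw [hw1, hw2]
          simp only [map_mul, map_neg, map_add, map_one, map_ofNat]
          ring
        rw [hw1']
        exact aux_wi hw0n hw0'
    · -- minimal
      intro W hW _
      rintro ⟨n, -, v, hv, hsum⟩
      obtain ⟨f, hf0, hfW⟩ := Submodule.exists_le_ker_of_lt_top W (lt_top_iff_ne_top.mpr hW)
      set ξ : Fin 3 → K := fun j => f (Pi.single j 1) with hξ
      have hfapp : ∀ x : Fin 3 → K, f x = ∑ j, ξ j * x j := by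
        intro x
        conv_lhs => rw [pi_eq_sum_univ' x]
        rw [map_sum]
        refine Finset.sum_congr rfl fun j _ => ?_
        rw [map_smul, smul_eq_mul, mul_comm, hξ]
      have hξ0 : ∃ j, ξ j ≠ 0 := by
        by_contra hcon
        push Not at hcon
        apply hf0
        refine LinearMap.ext fun x => ?_
        rw [hfapp]
        simp [hcon]
      have hperp : ∀ k, ∑ j, ξ j * ((v k : Fin 3 → K)) j = 0 := by
        intro k
        rw [← hfapp]
        exact hfW (v k).2
      have key := criterion_field (F := F) (K := K) (fun _ : Fin 1 => (1 : F)) ⟨0, one_ne_zero⟩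
        h1 (by simpa using h3) ξ hξ0 (fun k => ((v k : Fin 3 → K))) hperp (by
          have h5 : ∑ k, (w0 * (v k : Fin 3 → K) 0 ^ 2 + w1 * (v k : Fin 3 → K) 1 ^ 2
              + w2 * (v k : Fin 3 → K) 2 ^ 2) = 0 := by
            rw [← hsum]
            refine Finset.sum_congr rfl fun k _ => ?_
            rw [QuadraticMap.comp_apply, Submodule.subtype_apply, hQ]
          rw [Finset.sum_add_distrib, Finset.sum_add_distrib, ← Finset.mul_sum,
            ← Finset.mul_sum, ← Finset.mul_sum] at h5
          have e0 : algebraMap F[X] K (C 1 * (X ^ 2 + C (∑ _k : Fin 1, (1 : F) ^ 2))) = w0 := by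
            rw [hw0]
            congr 1
            simp
          rw [e0]
          exact h5)
      apply hv
      funext k
      apply Subtype.ext
      funext j
      exact key k j
  · refine sInf_le ⟨4, rfl, by norm_num, ?_⟩
    intro m f
    obtain ⟨a, b, c, d, h⟩ := S4_of_sum_sq (F := F) (K := K) hR hI f
    refine ⟨![a, b, c, d], ?_⟩
    rw [h, Fin.sum_univ_four]
    simp

end Pool.Agent.Results.MP_14789b_nt.WThreePFour
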